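import Pool.Agent.H14.BR.Stm
import Pool.Agent.H98.RF.BIG

/-!
Crew BR, part DMQ: `1 ≤ mu (body T) + 2 ^ (-k)` by counting words.
-/

set_option autoImplicit false

namespace H50.BR

open ZFSet (pair)
open Pool.Agent.W868
open MeasureTheory H14.ES H46.RF H14.BR H98.RF
open scoped ENNReal

/-- one level: an injection of the missing words to the words which extend `0^k` -/
theorem level_inj (hW : H46.RF.S_WRD) (M : Set ZFSet.{0}) (hM : IsZF M) (T : ZFSet.{0}) (k n : ℕ)
    (A B : Finset (Fin n → Bool))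
    (hA : ∀ w, w ∈ A ↔ ∀ i : Fin n, i.1 < k → w i = false)
    (hB : ∀ w, w ∈ B ↔ ¬ ini (ex w) n ∈ T) (hkn : k ≤ n) :
    (∃ f ∈ M, (∀ x, ini x n ∉ T → ∃ y ∈ cyl (fun _ => false) k, pair (ini x n) (ini y n) ∈ f) ∧
      ∀ a a' b, pair a b ∈ f → pair a' b ∈ f → a = a') ↔ B.card ≤ A.card := by
  classical
  obtain ⟨-, -, hinj, -, -, hWM⟩ := hW
  obtain ⟨hiniM, -, -, -⟩ := hWM M hM
  have hwin : ∀ w w' : Fin n → Bool, ini (ex w) n = ini (ex w') n → w = w' := by
    intro w w' h
    have h1 := ((hinj _ _ _ _).1 h).2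
    funext i
    have := h1 i i.2
    rwa [ex_lt, ex_lt] at this
  have hxe : ∀ x : ℕ → Bool, ini x n = ini (ex (rst n x)) n := by
    intro x
    rw [hinj]
    exact ⟨rfl, fun i hi => (ex_rst x i hi).symm⟩
  have hcyl : ∀ x : ℕ → Bool, x ∈ cyl (fun _ => false) k ↔ rst n x ∈ A := by
    intro x
    rw [hA]
    constructor
    · intro h i hi
      exact h i hi
    · intro h i hi
      exact h ⟨i, by omega⟩ hi
  constructor
  · rintro ⟨f, -, h1, h2⟩
    have key : ∀ w ∈ B, ∃ v ∈ A, pair (ini (ex w) n) (ini (ex v) n) ∈ f := by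
      intro w hw
      obtain ⟨y, hy, hyf⟩ := h1 (ex w) ((hB w).1 hw)
      refine ⟨rst n y, (hcyl y).1 hy, ?_⟩
      rw [← hxe y]
      exact hyf
    choose! g hgA hgf using key
    refine Finset.card_le_card_of_injOn g hgA ?_
    intro w hw w' hw' hww
    have e1 := hgf w hw
    have e2 := hgf w' hw'
    rw [← hww] at e2
    exact hwin _ _ (h2 _ _ _ e1 e2)
  · intro h
    obtain ⟨g, hgA, hg⟩ : ∃ g : (Fin n → Bool) → (Fin n → Bool), (∀ w ∈ B, g w ∈ A) ∧
        Set.InjOn g B := by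
      have h1 : Fintype.card B ≤ Fintype.card A := by simpa using h
      obtain ⟨e⟩ := Function.Embedding.nonempty_of_card_le h1
      refine ⟨fun w => if hw : w ∈ B then (e ⟨w, hw⟩).1 else w, ?_, ?_⟩
      · intro w hw
        simp only [hw, dif_pos]
        exact (e ⟨w, hw⟩).2
      · intro w hw w' hw' hww
        have hw1 : w ∈ B := hw
        have hw2 : w' ∈ B := hw'
        simp only [hw1, hw2, dif_pos] at hww
        have := e.injective (Subtype.ext hww)
        exact congrArg Subtype.val this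
    have hf : ∀ F : Finset (Fin n → Bool), ∃ f ∈ M, ∀ z, z ∈ f ↔
        ∃ w ∈ F, z = pair (ini (ex w) n) (ini (ex (g w)) n) := by
      intro F
      induction F using Finset.induction_on with
      | empty => exact ⟨∅, hM.empty_mem, fun z => by simp⟩
      | insert a s _ ih =>
        obtain ⟨f, hfM, hf⟩ := ih
        refine ⟨insert (pair (ini (ex a) n) (ini (ex (g a)) n)) f,
          hM.insert_mem (hM.pair_mem (hiniM _ _) (hiniM _ _)) hfM, fun z => ?_⟩
        rw [ZFSet.mem_insert_iff, hf]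
        simp only [Finset.mem_insert]
        constructor
        · rintro (h1 | ⟨w, h1, h2⟩)
          · exact ⟨a, Or.inl rfl, h1⟩
          · exact ⟨w, Or.inr h1, h2⟩
        · rintro ⟨w, rfl | h1, h2⟩
          · exact Or.inl h2
          · exact Or.inr ⟨w, h1, h2⟩
    obtain ⟨f, hfM, hf⟩ := hf B
    refine ⟨f, hfM, ?_, ?_⟩
    · intro x hxT
      have hB' : rst n x ∈ B := by
        rw [hB, ← hxe]
        exact hxT
      refine ⟨ex (g (rst n x)), ?_, ?_⟩
      · rw [hcyl, rst_ex]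
        exact hgA _ hB'
      · rw [hf]
        refine ⟨rst n x, hB', ?_⟩
        rw [← hxe]
    · intro a a' b h1 h2
      obtain ⟨w, hw, e1⟩ := (hf _).1 h1
      obtain ⟨w', hw', e2⟩ := (hf _).1 h2
      obtain ⟨rfl, rfl⟩ := ZFSet.pair_inj.1 e1
      obtain ⟨rfl, e3⟩ := ZFSet.pair_inj.1 e2
      have : w = w' := hg hw hw' (hwin _ _ e3)
      rw [this]

theorem dmq (hW : H46.RF.S_WRD) (hB : H46.RF.S_BMS) : H14.BR.S_DMQ := by
  classical
  intro M hM T hT k
  have hlm : ∀ m, MeasurableSet (lev T m) := hB.1 T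
  have hbm : MeasurableSet (body T) := hB.2.1 T
  have hbl : body T = ⋂ m, lev T m := hB.2.2.1 T
  have hanti : ∀ m n, m ≤ n → lev T n ⊆ lev T m := hB.2.2.2.1 T hT
  have hc2 := hB.2.2.2.2.2.2
  -- measure of the complement of a level
  have hstep : ∀ n, k ≤ n → ((∃ f ∈ M,
      (∀ x, ini x n ∉ T → ∃ y ∈ cyl (fun _ => false) k, pair (ini x n) (ini y n) ∈ f) ∧
      ∀ a a' b, pair a b ∈ f → pair a' b ∈ f → a = a') ↔ mu ℕ (lev T n)ᶜ ≤ (2 ^ k)⁻¹) := by
    intro n hkn
    let A : Finset (Fin n → Bool) := Finset.univ.filter fun w => ∀ i : Fin n, i.1 < k → w i = false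
    let B : Finset (Fin n → Bool) := Finset.univ.filter fun w => ¬ ini (ex w) n ∈ T
    have hA' : ∀ w, w ∈ A ↔ ∀ i : Fin n, i.1 < k → w i = false := by
      intro w; simp [A]
    have hB' : ∀ w, w ∈ B ↔ ¬ ini (ex w) n ∈ T := by
      intro w; simp [B]
    rw [level_inj hW M hM T k n A B hA' hB' hkn]
    have e1 : (lev T n)ᶜ = {x | rst n x ∈ B} := by
      ext x
      have h1 : x ∈ lev T n ↔ ini (ex (rst n x)) n ∈ T :=
        hB.2.2.2.2.1 T n x (ex (rst n x)) fun i hi => (ex_rst x i hi).symm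
      rw [Set.mem_compl_iff, h1]
      exact (hB' _).symm
    have e2 : cyl (fun _ => false) k = {x | rst n x ∈ A} := by
      ext x
      change _ ↔ rst n x ∈ A
      rw [hA']
      constructor
      · intro h i hi
        exact h i hi
      · intro h i hi
        exact h ⟨i, by omega⟩ hi
    have hc0 : ((2 : ℝ≥0∞) ^ n)⁻¹ ≠ 0 := by simp
    have hct : ((2 : ℝ≥0∞) ^ n)⁻¹ ≠ ∞ := by simp
    rw [← hc2 (fun _ => false) k, e1, e2, measure_level hB, measure_level hB,
      ENNReal.mul_le_mul_iff_left hc0 hct]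
    exact_mod_cast Iff.rfl
  have hmain : (1 ≤ mu ℕ (body T) + (2 ^ k)⁻¹) ↔ ∀ n, k ≤ n → mu ℕ (lev T n)ᶜ ≤ (2 ^ k)⁻¹ := by
    constructor
    · intro h n _
      rw [prob_compl_eq_one_sub (hlm n), tsub_le_iff_left]
      refine h.trans ?_
      gcongr
      rw [hbl]
      exact Set.iInter_subset _ n
    · intro h
      have h1 : (body T)ᶜ = ⋃ m, (lev T m)ᶜ := by rw [hbl, Set.compl_iInter]
      have h2 : Monotone fun m => (lev T m)ᶜ := fun m n hmn =>
        Set.compl_subset_compl.2 (hanti m n hmn)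
      have h3 := tendsto_measure_iUnion_atTop (μ := mu ℕ) h2
      rw [← h1] at h3
      have h4 : mu ℕ (body T)ᶜ ≤ (2 ^ k)⁻¹ := by
        refine le_of_tendsto h3 ?_
        filter_upwards [Filter.eventually_ge_atTop k] with n hn
        exact h n hn
      rw [prob_compl_eq_one_sub hbm, tsub_le_iff_left] at h4
      exact h4
  rw [hmain]
  constructor
  · intro h n hn
    exact (hstep n hn).2 (h n hn)
  · intro h n hn
    exact (hstep n hn).1 (h n hn)

end H50.BR
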